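import Pool.Agent.Lib.MP_369ee2_lc.NoTypeSystem
import Pool.Agent.Lib.MP_369ee2_lc.Limit
import Pool.Agent.Lib.MP_369ee2_lc.ExistsSeq

/-!
# m-schemes and deterministic factoring

For every `ε > 0` there is a constant `C` such that every homogeneous antisymmetric `m`-scheme on
`n ≥ 2` points with `m ≥ ε log n + C` contains a matching.
-/

namespace Pool.Agent.Results.MP_369ee2_lc.Matching

open MSch

/-- **Main theorem.**  For every `ε > 0` there is `C` such that every homogeneous antisymmetric
`m`-scheme (Ivanyos–Karpinski–Saxena) on a set `V` with at least two points and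
`ε log |V| + C ≤ m` has a matching. -/
theorem result (ε : ℝ) (hε : 0 < ε) :
    ∃ C : ℝ, ∀ (V : Type) [Fintype V] (m : ℕ) (Q : MScheme V m),
      2 ≤ Fintype.card V → Q.Homogeneous → Q.Antisymmetric →
        ε * Real.log (Fintype.card V) + C ≤ m → Q.HasMatching := by
  by_contra h
  obtain ⟨B, hB, A, herr, hprim⟩ := exists_seq ε hε h
  obtain ⟨L⟩ := exists_typeSystem_of_seq B hB A herr hprim
  exact no_typeSystem L

end Pool.Agent.Results.MP_369ee2_lc.Matching
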