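import Pool.Agent.Lib.MP_369ee2_lc_PD.FrobClass

/-!
# Classification of m-schemes of prime degree

A homogeneous `m`-scheme (`m ≥ 6`) on a prime number `p` of points without symmetric colours of
pairs is the scheme of orbits of a group of affine maps `x ↦ a x + b` of `ZMod p`, where `a` runs
through a group of odd order; all these groups occur.
-/

namespace Pool.Agent.Results.MP_369ee2_lc.PrimeClassification

open MSch PDeg.Frob

/-- **Main theorem.**  Let `p` be a prime, `m ≥ 6` and `V` a set with `p` elements.

(1) If `Q` is a homogeneous `m`-scheme on `V` in which no colour of pairs is its own reverse, then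
`p` is odd and there are a bijection `φ` of `V` with `ZMod p` and a subgroup `H` of odd order of
`(ZMod p)ˣ` such that for all `s ≤ m` two injective `s`-tuples `u`, `v` have the same colour if and
only if `φ (v i) = a * φ (u i) + b` for some `a ∈ H`, some `b` and all `i`.  The scheme `Q` is
antisymmetric if and only if all prime divisors of `p * |H|` are greater than `m`.

(2) Conversely, if `p` is odd, every bijection `φ` and every subgroup `H` of odd order come from
such a scheme. -/
theorem result (p : ℕ) (hp : p.Prime) (m : ℕ) (hm : 6 ≤ m) (V : Type) [Fintype V]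
    (hV : Fintype.card V = p) :
    (∀ Q : MScheme V m, Q.Homogeneous → NoSymmetricPair Q →
      Odd p ∧ ∃ (φ : V ≃ ZMod p) (H : Subgroup (ZMod p)ˣ), Odd (Nat.card H) ∧
        AffineColours Q φ H ∧
        (Q.Antisymmetric ↔ ∀ r : ℕ, r.Prime → r ∣ p * Nat.card H → m < r)) ∧
    (Odd p → ∀ (φ : V ≃ ZMod p) (H : Subgroup (ZMod p)ˣ), Odd (Nat.card H) →
      ∃ Q : MScheme V m, Q.Homogeneous ∧ NoSymmetricPair Q ∧ AffineColours Q φ H) :=
  classification p hp m hm V hV

end Pool.Agent.Results.MP_369ee2_lc.PrimeClassification
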