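import Pool.Agent.Lib.MP_369ee2_lc_PD.Final
import Pool.Agent.Lib.MP_369ee2_lc_PD.PrimeWeak

/-!
# m-schemes with a prime number of points and deterministic factoring

Every homogeneous antisymmetric `m`-scheme (Ivanyos, Karpinski, Saxena), `m ≥ 6`, on a prime number
of points contains a matching. More generally a matching exists as soon as a fibre of depth
`j ≤ m - 6`, or a block of such a fibre, has prime cardinality. Of antisymmetry only the case of
pairs is used.
-/

namespace Pool.Agent.Results.MP_369ee2_lc.PrimeDegree

open MSch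

/-- No colour of pairs is symmetric: `(y 1, y 0)` and `(y 0, y 1)` never have the same colour. This
is the case `s = 2` of `Antisymmetric`. -/
def Asym {V : Type} [Fintype V] {m : ℕ} (Q : MScheme V m) : Prop :=
  ∀ y : Fin 2 ↪ V, ¬ (Q.P 2).r ((Equiv.swap (0 : Fin 2) 1).toEmbedding.trans y) y

/-- **Main theorem.** Let `Q` be an `m`-scheme on a finite set `V` without symmetric colour of
pairs (for instance an antisymmetric `m`-scheme).

First part: if `V` has a prime number of points, `m ≥ 6` and `Q` is homogeneous, `Q` has a matching.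

Second part: let `x` be an injective `j`-tuple, `j + 6 ≤ m`, `v` a point outside `x`, `Q.cls x v`
the fibre of `v` over `x`, and `E` an equivalence relation on `V` which is recognised, for pairs of
points `(a, b)` of this fibre, by the colours of the `j + 2`-tuples `(x, a, b)`. If the class of `v`
in the fibre has prime cardinality, `Q` has a matching. For `j = 0`, `Q` homogeneous and `E` the
relation with one class this is the first part. -/
theorem result {V : Type} [Fintype V] {m : ℕ} (Q : MScheme V m) (hQ : Asym Q) :
    (6 ≤ m → (Fintype.card V).Prime → Q.Homogeneous → Q.HasMatching) ∧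
    ∀ (j : ℕ), j + 6 ≤ m → ∀ (x : Fin j ↪ V) (v : V), v ∉ Set.range x → ∀ E : Setoid V,
      (∀ (a b a' b' : V) (ha : a ∉ Set.range x) (hb : b ∉ Set.range (ext x a ha))
        (ha' : a' ∉ Set.range x) (hb' : b' ∉ Set.range (ext x a' ha')),
        a ∈ Q.cls x v → b ∈ Q.cls x v →
        (Q.P (j + 2)).r (ext (ext x a ha) b hb) (ext (ext x a' ha') b' hb') →
        E.r a b → E.r a' b') →
      {w | w ∈ Q.cls x v ∧ E.r w v}.ncard.Prime → Q.HasMatching :=
  have main : ∀ (V : Type) [Fintype V] (m : ℕ) (Q : MScheme V m), 6 ≤ m →
      (Fintype.card V).Prime → Q.Homogeneous → Asym Q → Q.HasMatching :=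
    fun V _ m Q hm hp hH h2 => PDeg.matching_of_singles
      (fun _ _ C hp x y z hxy hxz hyz => PDeg.singles C hp x y z hxy hxz hyz) V m Q hm hp hH h2
  ⟨fun hm hp hH => main V m Q hm hp hH hQ,
    fun _ hj x v hv E hE hp => PDeg.fibre_block_weak main Q hQ hj x v hv E hE hp⟩

end Pool.Agent.Results.MP_369ee2_lc.PrimeDegree
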